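import Mathlib

/-!
# A triangle-free graph with a sparsely joined perfect matching and no balanced split

The graph has 14 vertices, 28 edges and fourteen 4-cycles.
-/

set_option autoImplicit false

namespace Pool.Agent.Results.MP_42b70f_co.NoBalancedSplit

open Finset

open Classical in
/-- The matching `M` of `G` is sparsely joined: for two distinct edges `uv` and `xy` of `M` at most
one of `ux`, `uy`, `vx`, `vy` is an edge of `G`. -/
def SparselyJoined {V : Type} (G : SimpleGraph V) (M : G.Subgraph) : Prop :=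
  ∀ u v x y : V, M.Adj u v → M.Adj x y → s(u, v) ≠ s(x, y) →
    (if G.Adj u x then 1 else 0) + (if G.Adj u y then 1 else 0) + (if G.Adj v x then 1 else 0) +
      (if G.Adj v y then 1 else 0) ≤ 1

/-- `a`, `b`, `c`, `d` are, in this order, the vertices of a 4-cycle of `G`. -/
def IsFourCycle {V : Type} (G : SimpleGraph V) (a b c d : V) : Prop :=
  a ≠ b ∧ a ≠ c ∧ a ≠ d ∧ b ≠ c ∧ b ≠ d ∧ c ≠ d ∧ G.Adj a b ∧ G.Adj b c ∧ G.Adj c d ∧ G.Adj d a

/-- The 4-cycle `a b c d` is caught by `A`: the opposite pair `a, c` or the opposite pair `b, d`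
lies entirely inside `A` or entirely outside `A`. -/
def Caught {V : Type} (A : Finset V) (a b c d : V) : Prop :=
  (a ∈ A ∧ c ∈ A) ∨ (a ∉ A ∧ c ∉ A) ∨ (b ∈ A ∧ d ∈ A) ∨ (b ∉ A ∧ d ∉ A)

/-- The edges. -/
def L : List (Fin 14 × Fin 14) :=
  [(0, 1), (0, 6), (0, 10), (1, 3), (1, 5), (1, 9), (1, 12), (2, 3), (2, 4), (2, 9), (2, 10),
    (3, 7), (3, 13), (4, 5), (4, 12), (5, 7), (5, 8), (5, 10), (6, 7), (6, 8), (6, 12), (7, 11),
    (8, 9), (8, 13), (9, 11), (10, 11), (10, 13), (12, 13)]

/-- The graph. -/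
def G : SimpleGraph (Fin 14) where
  Adj i j := (i, j) ∈ L ∨ (j, i) ∈ L
  symm := ⟨fun _ _ h => h.symm⟩
  loopless := ⟨by decide⟩

instance : DecidableRel G.Adj := fun i j =>
  inferInstanceAs (Decidable ((i, j) ∈ L ∨ (j, i) ∈ L))

/-- The matching with the edges `{0, 1}`, `{2, 3}`, …, `{12, 13}`. -/
def M : G.Subgraph where
  verts := Set.univ
  Adj i j := i.val / 2 = j.val / 2 ∧ i ≠ j
  adj_sub := by
    intro i j h
    revert h
    revert i j
    decide
  edge_vert := fun _ => Set.mem_univ _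
  symm := ⟨fun _ _ h => ⟨h.1.symm, h.2.symm⟩⟩

lemma triangle_free : G.CliqueFree 3 := by
  intro s hs
  rw [SimpleGraph.is3Clique_iff] at hs
  obtain ⟨a, b, c, h1, h2, h3, _⟩ := hs
  have h : ∀ a b : Fin 14, G.Adj a b → ∀ c : Fin 14, G.Adj a c → ¬ G.Adj b c := by decide
  exact h a b h1 c h2 h3

lemma perfect : M.IsPerfectMatching := by
  constructor
  · intro v _
    have h : ∀ v : Fin 14, ∃ w : Fin 14, (v.val / 2 = w.val / 2 ∧ v ≠ w) ∧
        ∀ w' : Fin 14, (v.val / 2 = w'.val / 2 ∧ v ≠ w') → w' = w := by decide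
    obtain ⟨w, h1, h2⟩ := h v
    exact ⟨w, h1, h2⟩
  · intro v
    exact Set.mem_univ v

lemma sparse : SparselyJoined G M := by
  have h : ∀ u v : Fin 14, (u.val / 2 = v.val / 2 ∧ u ≠ v) → ∀ x y : Fin 14,
      (x.val / 2 = y.val / 2 ∧ x ≠ y) → u.val / 2 ≠ x.val / 2 →
      (if G.Adj u x then 1 else 0) + (if G.Adj u y then 1 else 0) + (if G.Adj v x then 1 else 0) +
        (if G.Adj v y then 1 else 0) ≤ 1 := by decide
  intro u v x y huv hxy hne
  have hux : u.val / 2 ≠ x.val / 2 := by
    intro hux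
    apply hne
    have h' : ∀ u v : Fin 14, (u.val / 2 = v.val / 2 ∧ u ≠ v) → ∀ x y : Fin 14,
        (x.val / 2 = y.val / 2 ∧ x ≠ y) → u.val / 2 = x.val / 2 → s(u, v) = s(x, y) := by decide
    exact h' u v huv x y hxy hux
  convert h u v huv x y hxy hux

set_option synthInstance.maxSize 4096 in
lemma bool_check : ∀ b12 b6 b13 b8 : Bool, (b6 == b13 || b8 == b12) = true →
    ∀ b10 b5 : Bool, (b5 == b13 || b8 == b10) = true →
    ∀ b0 b1 : Bool, (b0 == b5 || b1 == b10) = true → (b0 == b12 || b1 == b6) = true →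
    ∀ b7 : Bool, (b5 == b6 || b7 == b8) = true →
    ∀ b3 : Bool, (b1 == b7 || b3 == b5) = true → (b1 == b13 || b3 == b12) = true →
    ∀ b2 : Bool, (b2 == b13 || b3 == b10) = true →
    ∀ b9 : Bool, (b1 == b2 || b3 == b9) = true → (b1 == b8 || b5 == b9) = true →
    ∀ b4 : Bool, (b1 == b4 || b5 == b12) = true → (b2 == b5 || b4 == b10) = true →
    ∀ b11 : Bool, (b2 == b11 || b9 == b10) = true → (b5 == b11 || b7 == b10) = true →
    b0.toNat + b1.toNat + b2.toNat + b3.toNat + b4.toNat + b5.toNat + b6.toNat + b7.toNat +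
      b8.toNat + b9.toNat + b10.toNat + b11.toNat + b12.toNat + b13.toNat ≠ 7 := by
  decide

instance (a b c d : Fin 14) : Decidable (IsFourCycle G a b c d) := by
  unfold IsFourCycle; infer_instance

/-- if every 4-cycle is caught then the split is not balanced -/
lemma no_split (A : Finset (Fin 14)) (hA : ∀ a b c d, IsFourCycle G a b c d → Caught A a b c d) :
    A.card ≠ 7 := by
  let b : Fin 14 → Bool := fun i => decide (i ∈ A)
  have hcard : A.card = (b 0).toNat + (b 1).toNat + (b 2).toNat + (b 3).toNat + (b 4).toNat +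
      (b 5).toNat + (b 6).toNat + (b 7).toNat + (b 8).toNat + (b 9).toNat + (b 10).toNat +
      (b 11).toNat + (b 12).toNat + (b 13).toNat := by
    have h1 : A.card = ∑ i : Fin 14, (b i).toNat := by
      have h2 : A.card = ∑ i : Fin 14, if i ∈ A then 1 else 0 := by
        rw [← Finset.card_filter]
        congr 1
        ext i; simp
      rw [h2]
      refine Finset.sum_congr rfl fun i _ => ?_
      by_cases hi : i ∈ A
      · simp [b, hi]
      · simp [b, hi]
    rw [h1]
    simp only [Fin.sum_univ_succ, Fin.sum_univ_zero]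
    simp only [add_zero, add_assoc]
    rfl
  have key : ∀ x y z w : Fin 14, IsFourCycle G x y z w → (b x == b z || b y == b w) = true := by
    intro x y z w h
    have h1 := hA x y z w h
    unfold Caught at h1
    simp only [b]
    rcases h1 with ⟨h2, h3⟩ | ⟨h2, h3⟩ | ⟨h2, h3⟩ | ⟨h2, h3⟩ <;> simp [h2, h3]
  rw [hcard]
  exact bool_check (b 12) (b 6) (b 13) (b 8) (key 6 8 13 12 (by decide)) (b 10) (b 5)
    (key 5 8 13 10 (by decide)) (b 0) (b 1) (key 0 1 5 10 (by decide)) (key 0 1 12 6 (by decide))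
    (b 7) (key 5 7 6 8 (by decide)) (b 3) (key 1 3 7 5 (by decide)) (key 1 3 13 12 (by decide))
    (b 2) (key 2 3 13 10 (by decide)) (b 9) (key 1 3 2 9 (by decide)) (key 1 5 8 9 (by decide))
    (b 4) (key 1 5 4 12 (by decide)) (key 2 4 5 10 (by decide)) (b 11) (key 2 9 11 10 (by decide))
    (key 5 7 11 10 (by decide))

/-- There is a triangle-free graph on 14 vertices with a sparsely joined perfect matching such that
for every set `A` of 7 vertices some 4-cycle is not caught by `A`. -/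
theorem result : ∃ G : SimpleGraph (Fin 14), G.CliqueFree 3 ∧
    (∃ M : G.Subgraph, M.IsPerfectMatching ∧ SparselyJoined G M) ∧
    ∀ A : Finset (Fin 14), A.card = 7 →
      ∃ a b c d, IsFourCycle G a b c d ∧ ¬ Caught A a b c d := by
  refine ⟨G, triangle_free, ⟨M, perfect, sparse⟩, ?_⟩
  intro A hA
  by_contra hcon
  push Not at hcon
  exact no_split A hcon hA

end Pool.Agent.Results.MP_42b70f_co.NoBalancedSplit
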